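import Pool.Agent.MP_670f9a_nt.H13.Spec2

/-! The monomial substitution that turns an edge of the Newton polygon into the top coefficient. -/

namespace Pool.Agent.MP_670f9a_nt.H14Sub

open Polynomial Pool.Agent.MP_670f9a_nt.NP

theorem wt_inj (q₁ : ℤ) (q₂ : ℕ) (hq : 1 ≤ q₂) (m m' : Fin 2 →₀ ℕ)
    (h : wt q₁ q₂ m = wt q₁ q₂ m') (h0 : m 0 = m' 0) : m = m' := by
  unfold wt at h
  rw [h0] at h
  have h1 : (q₂ : ℤ) * m 1 = q₂ * m' 1 := by linarith
  have hq' : (q₂ : ℤ) ≠ 0 := by exact_mod_cast (by omega : q₂ ≠ 0)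
  have h2 : m 1 = m' 1 := by exact_mod_cast mul_left_cancel₀ hq' h1
  ext i
  fin_cases i
  · exact h0
  · exact h2

theorem sSub : SSub := by
  classical
  intro P q₁ q₂ s t hq hs ht hmax hts
  set K : ℕ := q₁.natAbs * P.degreeOf 0 with hK
  have hle : ∀ m ∈ P.support, m 0 ≤ P.degreeOf 0 := fun m hm =>
    MvPolynomial.monomial_le_degreeOf 0 hm
  have hnn : ∀ m ∈ P.support, 0 ≤ (K : ℤ) + wt q₁ q₂ m := by
    intro m hm
    have h1 : (m 0 : ℤ) ≤ P.degreeOf 0 := by exact_mod_cast hle m hm
    have h2 : (0 : ℤ) ≤ m 0 := Nat.cast_nonneg _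
    have h3 : (0 : ℤ) ≤ (q₂ : ℤ) * m 1 := by positivity
    have h4 : -q₁ ≤ |q₁| := neg_le_abs q₁
    have h5 : (0 : ℤ) ≤ |q₁| := abs_nonneg q₁
    unfold wt
    rw [hK]
    push_cast
    nlinarith [mul_le_mul_of_nonneg_left h1 h5, mul_le_mul_of_nonneg_right h4 h2]
  let e : (Fin 2 →₀ ℕ) → ℕ := fun m => ((K : ℤ) + wt q₁ q₂ m).toNat
  have he : ∀ m ∈ P.support, (e m : ℤ) = K + wt q₁ q₂ m := fun m hm =>
    Int.toNat_of_nonneg (hnn m hm)
  let F : ℤ[X][X] :=
    ∑ m ∈ P.support, monomial (e m) (monomial (m 0) (MvPolynomial.coeff m P))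
  have hcoef : ∀ j, F.coeff j = ∑ m ∈ P.support,
      if e m = j then monomial (m 0) (MvPolynomial.coeff m P) else 0 := fun j => by
    simp only [F, finsetSum_coeff, coeff_monomial]
  have hcc : ∀ m ∈ P.support, (F.coeff (e m)).coeff (m 0) = MvPolynomial.coeff m P := by
    intro m hm
    rw [hcoef, finsetSum_coeff, Finset.sum_eq_single m]
    · simp
    · intro m' hm' hne
      split_ifs with h
      · rw [coeff_monomial, if_neg]
        intro h0
        refine hne (wt_inj q₁ q₂ hq _ _ ?_ h0)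
        have h1 := he m hm
        have h2 := he m' hm'
        rw [h] at h2
        linarith
      · simp
    · intro h
      exact absurd hm h
  have hdeg : F.natDegree = e s := by
    refine natDegree_eq_of_le_of_coeff_ne_zero ?_ fun h => ?_
    · refine natDegree_sum_le_of_forall_le _ _ fun m hm => (natDegree_monomial_le _).trans ?_
      have h1 := he m hm
      have h2 := he s hs
      have h3 := hmax m hm
      omega
    · have := hcc s hs
      rw [h, coeff_zero] at this
      exact MvPolynomial.mem_support_iff.1 hs this.symm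
  have hest : e t = e s := by simp only [e, hts]
  refine ⟨F, K, fun j => ?_, ?_, ?_, fun u v hv => ?_⟩
  · rw [hcoef]
    refine natDegree_sum_le_of_forall_le _ _ fun m hm => ?_
    split_ifs
    · exact (natDegree_monomial_le _).trans (hle m hm)
    · simp
  · rw [leadingCoeff, hdeg, hcc s hs]
    exact MvPolynomial.mem_support_iff.1 hs
  · rw [leadingCoeff, hdeg, ← hest, hcc t ht]
    exact MvPolynomial.mem_support_iff.1 ht
  · rw [MvPolynomial.aeval_def, MvPolynomial.eval₂_eq', Finset.mul_sum]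
    simp only [toC, F, Polynomial.map_sum, evalEval, eval_finsetSum]
    refine Finset.sum_congr rfl fun m hm => ?_
    have h1 : v ^ e m = v ^ K * ((v ^ q₁) ^ m 0 * (v ^ q₂) ^ m 1) := by
      rw [← zpow_natCast v (e m), he m hm, zpow_add₀ hv, zpow_natCast, wt, zpow_add₀ hv,
        zpow_mul, zpow_natCast, ← Nat.cast_mul, zpow_natCast, pow_mul v q₂]
    simp only [Polynomial.map_monomial, coe_mapRingHom, eval_monomial, eval_mul, eval_pow, eval_C,
      Fin.prod_univ_two, Matrix.cons_val_zero, Matrix.cons_val_one, h1, mul_pow, eq_intCast,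
      algebraMap_int_eq]
    ring

end Pool.Agent.MP_670f9a_nt.H14Sub
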